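import Pool.Agent.Q31.GC.Main

set_option autoImplicit false

namespace Pool.Agent.Q31.GC

open Finset Real Filter

lemma pow_diff {x y : ℝ} (hy : 0 ≤ y) (hyx : y ≤ x) (p : ℕ) :
    x * (x ^ p - y ^ p) ≤ p * x ^ p * (x - y) := by
  have hx : 0 ≤ x := hy.trans hyx
  induction p with
  | zero => simp
  | succ p ih =>
    have h1 : x * (x ^ (p + 1) - y ^ (p + 1)) = x * (x * (x ^ p - y ^ p)) + x * ((x - y) * y ^ p) := by
      ring
    have h2 : x * (x * (x ^ p - y ^ p)) ≤ x * (p * x ^ p * (x - y)) :=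
      mul_le_mul_of_nonneg_left ih hx
    have h3 : x * ((x - y) * y ^ p) ≤ x * ((x - y) * x ^ p) := by
      apply mul_le_mul_of_nonneg_left _ hx
      apply mul_le_mul_of_nonneg_left _ (by linarith)
      exact pow_le_pow_left₀ hy hyx p
    rw [h1]
    push_cast
    calc _ ≤ x * (p * x ^ p * (x - y)) + x * ((x - y) * x ^ p) := add_le_add h2 h3
      _ = _ := by ring

lemma ev (p : ℕ) (hp : 1 ≤ p) : ∃ N0 : ℕ, ∀ N : ℕ, N0 ≤ N →
    (log N) ^ 2 ≤ 2 / p * (N : ℝ) ^ (1 / 8 : ℝ) ∧ 2 * (log 8 + log (log 16)) ≤ log (log N) ∧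
    2 ≤ (N : ℝ) ^ (1 / 8 : ℝ) ∧ 1 ≤ log N ∧ (1 : ℝ) ≤ N := by
  have hp0 : (0 : ℝ) < 2 / p := by
    have : (0 : ℝ) < p := by exact_mod_cast hp
    positivity
  have e1 : ∀ᶠ x : ℝ in atTop, (log x) ^ 2 ≤ 2 / p * x ^ (1 / 8 : ℝ) := by
    have h := (isLittleO_log_rpow_rpow_atTop 2 (show (0 : ℝ) < 1 / 8 by norm_num)).bound hp0
    filter_upwards [h, eventually_ge_atTop (1 : ℝ)] with x hx hx1
    have h1 : 0 ≤ log x := Real.log_nonneg hx1
    rw [Real.norm_of_nonneg (by positivity), Real.norm_of_nonneg (by positivity)] at hx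
    have h2 : log x ^ (2 : ℝ) = log x ^ 2 := by
      rw [← Real.rpow_natCast]; norm_num
    rwa [h2] at hx
  have e2 : ∀ᶠ x : ℝ in atTop, 2 * (log 8 + log (log 16)) ≤ log (log x) :=
    (Real.tendsto_log_atTop.comp Real.tendsto_log_atTop).eventually_ge_atTop _
  have e3 : ∀ᶠ x : ℝ in atTop, 2 ≤ x ^ (1 / 8 : ℝ) :=
    (tendsto_rpow_atTop (by norm_num)).eventually_ge_atTop _
  have e4 : ∀ᶠ x : ℝ in atTop, 1 ≤ log x := Real.tendsto_log_atTop.eventually_ge_atTop _
  obtain ⟨X, hX⟩ := eventually_atTop.1 (e1.and (e2.and (e3.and (e4.and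
    (eventually_ge_atTop (1 : ℝ))))))
  obtain ⟨N0, hN0⟩ := exists_nat_ge X
  exact ⟨N0, fun N hN => hX N (hN0.trans (by exact_mod_cast hN))⟩

theorem asym (p : ℕ) (hp : 1 ≤ p) : ∃ N0 : ℕ, ∀ (n N : ℕ) (v b g : ℕ → ℕ), Seg n N v b g →
    (∀ k : ℕ, 1 ≤ k → (v k : ℝ) = (k : ℝ) ^ p - 1) → N0 ≤ N →
    1 / 8 * (log N * log (log N)) ≤ (N : ℝ) - n := by
  obtain ⟨N0, hN0⟩ := ev p hp
  refine ⟨N0, fun n N v b g h hv hN => ?_⟩
  obtain ⟨h1, h2, h3, h4, h5⟩ := hN0 N hN
  have hlt := h.lt
  have hNn : (n : ℝ) + 2 ≤ N := by exact_mod_cast hlt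
  have hpR : (1 : ℝ) ≤ p := by exact_mod_cast hp
  set x : ℝ := (N : ℝ) with hx
  set J : ℝ := x - n with hJ
  set t : ℝ := x ^ (1 / 8 : ℝ) with ht
  have hx0 : 0 < x := by linarith
  have ht8 : t ^ 8 = x := by
    rw [ht, ← Real.rpow_natCast, ← Real.rpow_mul hx0.le]; norm_num
  have hlogt : log t = 1 / 8 * log x := by
    rw [ht, Real.log_rpow hx0]
  have hJ2 : 2 ≤ J := by rw [hJ]; linarith
  have hll : log (log x) ≤ log x := (Real.log_le_sub_one_of_pos (by linarith)).trans (by linarith)
  have hll0 : 0 ≤ log (log x) := Real.log_nonneg h4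
  rcases le_or_gt (4 * p * J) t with hc | hc
  · -- the main case
    set P : ℝ := x ^ p with hP
    have hPx : x ≤ P := by
      rw [hP]
      exact le_self_pow₀ h5 (by omega)
    have hP0 : 0 < P := by positivity
    have ht0 : 0 < t := by linarith
    have hx256 : 256 ≤ x := by
      rw [← ht8]
      calc (256 : ℝ) = 2 ^ 8 := by norm_num
        _ ≤ t ^ 8 := pow_le_pow_left₀ (by norm_num) h3 8
    have hvN : (v N : ℝ) = P - 1 := hv N (by omega)
    have hvn : (v (n + 1) : ℝ) = ((n : ℝ) + 1) ^ p - 1 := by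
      rw [hv (n + 1) (by omega)]; push_cast; ring
    set W : ℝ := p * P * J / x with hWd
    set G : ℝ := P / t ^ 2 with hGd
    have hW : (v N : ℝ) - v (n + 1) ≤ W := by
      have h6 := pow_diff (x := x) (y := (n : ℝ) + 1) (by positivity) (by linarith) p
      rw [hvN, hvn, hWd, le_div_iff₀ hx0]
      have h7 : (p : ℝ) * x ^ p * (x - (n + 1)) ≤ p * P * J := by
        apply mul_le_mul_of_nonneg_left _ (by positivity)
        rw [hJ]; linarith
      nlinarith
    have hW0 : 0 < W := by positivity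
    have hWle : W ≤ P / (4 * t ^ 7) := by
      rw [hWd, ← ht8, div_le_div_iff₀ (by positivity) (by positivity)]
      have : (p : ℝ) * P * J * (4 * t ^ 7) = P * t ^ 7 * (4 * p * J) := by ring
      rw [this]
      have e : P * t ^ 8 = P * t ^ 7 * t := by ring
      rw [e]
      exact mul_le_mul_of_nonneg_left hc (by positivity)
    have ht1 : 1 ≤ t := by linarith
    have hWG : W ≤ G := by
      refine hWle.trans ?_
      rw [hGd]
      apply div_le_div_of_nonneg_left hP0.le (by positivity)
      have : t ^ 2 ≤ t ^ 7 := pow_le_pow_right₀ ht1 (by norm_num)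
      have : 0 < t ^ 7 := by positivity
      linarith
    have hG0 : 0 < G := by positivity
    have hX : W + J * G ≤ P / (2 * t) := by
      have e1 : J * G ≤ P / (4 * t) := by
        rw [hGd, mul_div_assoc', div_le_div_iff₀ (by positivity) (by positivity)]
        have e : P * t ^ 2 = P * t * t := by ring
        have e' : J * P * (4 * t) = P * t * (4 * J) := by ring
        rw [e, e']
        apply mul_le_mul_of_nonneg_left _ (by positivity)
        nlinarith
      have e2 : P / (4 * t ^ 7) ≤ P / (4 * t) := by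
        apply div_le_div_of_nonneg_left hP0.le (by positivity)
        have : t ≤ t ^ 7 := le_self_pow₀ ht1 (by norm_num)
        linarith
      have e3 : P / (2 * t) = P / (4 * t) + P / (4 * t) := by field_simp; ring
      linarith
    have hX0 : 0 < W + J * G := by positivity
    have hP2 : P / 2 ≤ P - 1 := by linarith
    have h8 : P / (2 * t) ≤ P / 4 := by
      apply div_le_div_of_nonneg_left hP0.le (by norm_num); linarith
    have hε : 2 * (W + ((N : ℝ) - n) * G) ≤ v N := by
      rw [hvN]
      show 2 * (W + J * G) ≤ P - 1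
      linarith
    have hmain := h.core hW hW0 hWG hε
    have hmain' : log (G / W) * (log (log (8 / ((W + J * G) / (P - 1)))) - log (log 16)) ≤ 2 * J := by
      rw [hvN] at hmain
      exact hmain
    have hΛ : 1 / 2 * log x ≤ log (G / W) := by
      have e : 1 / 2 * log x = log (t ^ 4) := by
        rw [Real.log_pow, hlogt]; push_cast; ring
      rw [e]
      apply Real.log_le_log (by positivity)
      rw [le_div_iff₀ hW0]
      calc t ^ 4 * W ≤ t ^ 4 * (P / (4 * t ^ 7)) := mul_le_mul_of_nonneg_left hWle (by positivity)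
        _ = P / (4 * t ^ 3) := by field_simp
        _ ≤ G := by
          rw [hGd]
          apply div_le_div_of_nonneg_left hP0.le (by positivity)
          have : t ^ 2 ≤ t ^ 3 := pow_le_pow_right₀ ht1 (by norm_num)
          have : 0 < t ^ 3 := by positivity
          linarith
    have hε1 : 1 / 8 * log x ≤ log (8 / ((W + J * G) / (P - 1))) := by
      rw [← hlogt]
      apply Real.log_le_log ht0
      rw [div_div_eq_mul_div, le_div_iff₀ hX0]
      calc t * (W + J * G) ≤ t * (P / (2 * t)) := mul_le_mul_of_nonneg_left hX ht0.le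
        _ = P / 2 := by field_simp
        _ ≤ 8 * (P - 1) := by linarith
    have hε2 : log (log x) - log 8 ≤ log (log (8 / ((W + J * G) / (P - 1)))) := by
      have e : log (log x) - log 8 = log (1 / 8 * log x) := by
        rw [Real.log_mul (by norm_num) (by linarith), Real.log_div (by norm_num) (by norm_num),
          Real.log_one]
        ring
      rw [e]
      exact Real.log_le_log (by positivity) hε1
    have hbr : 1 / 2 * log (log x) ≤
        log (log (8 / ((W + J * G) / (P - 1)))) - log (log 16) := by linarith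
    have hprod : (1 / 2 * log x) * (1 / 2 * log (log x)) ≤
        log (G / W) * (log (log (8 / ((W + J * G) / (P - 1)))) - log (log 16)) :=
      mul_le_mul hΛ hbr (by positivity) (le_trans (by positivity) hΛ)
    linarith
  · -- the distance is at least a power
    have h6 : log x * log (log x) ≤ (log x) ^ 2 := by
      rw [sq]
      exact mul_le_mul_of_nonneg_left hll (by linarith)
    have h7 : 2 / (p : ℝ) * t ≤ 8 * J := by
      rw [div_mul_eq_mul_div, div_le_iff₀ (by linarith)]
      linarith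
    linarith

end Pool.Agent.Q31.GC
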