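import Mathlib

set_option autoImplicit false

/-!
# A descent by greatest common divisors is long

Abstract form: `b` descends from `v (n+1)` to `0` at the time `N`, the jump `g k = b (k-1) - b k`
divides `b (k-1)` and `v k`. If `c = v i / g i` is the cofactor of a jump, the later jumps satisfy
`g k ≤ (1 + c) ^ (k - i) W` with a bound `W` for the differences of `v`: after a large jump there is
no large jump for a long time. The potential `- log log (8 / Y)`, `Y` the normalised sum of the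
large jumps, sums this up.
-/

namespace Pool.Agent.Q31.GC

open Finset Real

/-- a descent from `v (n+1)` at time `n+1` to `0` at time `N` -/
structure Seg (n N : ℕ) (v b g : ℕ → ℕ) : Prop where
  lt : n + 2 ≤ N
  mono : ∀ i k, n + 1 ≤ i → i < k → k ≤ N → v i < v k
  start : b (n + 1) = v (n + 1)
  stop : b N = 0
  pos : ∀ k, n + 2 ≤ k → k ≤ N → 0 < b (k - 1)
  step : ∀ k, n + 2 ≤ k → k ≤ N → b k + g k = b (k - 1)
  dvdb : ∀ k, n + 2 ≤ k → k ≤ N → g k ∣ b (k - 1)
  dvdv : ∀ k, n + 2 ≤ k → k ≤ N → g k ∣ v k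
  gpos : ∀ k, n + 2 ≤ k → k ≤ N → 0 < g k

variable {n N : ℕ} {v b g : ℕ → ℕ}

lemma Seg.anti (h : Seg n N v b g) (i : ℕ) (hi : n + 1 ≤ i) :
    ∀ j, i ≤ j → j ≤ N → b j ≤ b i := by
  intro j hij
  induction j, hij using Nat.le_induction with
  | base => intro _; exact le_rfl
  | succ j hij ih =>
    intro hj
    have h1 := h.step (j + 1) (by omega) hj
    rw [Nat.add_sub_cancel] at h1
    have := ih (by omega)
    omega

lemma Seg.vle (h : Seg n N v b g) {i k : ℕ} (hi : n + 1 ≤ i) (hik : i ≤ k) (hk : k ≤ N) :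
    v i ≤ v k := by
  rcases hik.eq_or_lt with rfl | h1
  · exact le_rfl
  · exact (h.mono i k hi h1 hk).le

lemma Seg.jump (h : Seg n N v b g) {i k c q : ℕ} (hi : n + 1 ≤ i) (hik : i < k) (hk : k ≤ N)
    (hcq : c * b i = q * v i) (hq : 1 ≤ q) (hqc : q ≤ c) :
    (g k : ℝ) ≤ c * (((v k : ℝ) - v i) + ((b i : ℝ) - b (k - 1))) := by
  have h1 := h.dvdb k (by omega) hk
  have h2 := h.dvdv k (by omega) hk
  have h3 := h.mono i k hi hik hk
  have h4 := h.anti i hi (k - 1) (by omega) (by omega)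
  have e : (q : ℤ) * v k - c * b (k - 1) = q * ((v k : ℤ) - v i) + c * ((b i : ℤ) - b (k - 1)) := by
    have : (c : ℤ) * b i = q * v i := by exact_mod_cast hcq
    linarith
  have h5 : (g k : ℤ) ∣ (q : ℤ) * v k - c * b (k - 1) :=
    dvd_sub ((Int.natCast_dvd_natCast.2 h2).mul_left _) ((Int.natCast_dvd_natCast.2 h1).mul_left _)
  have h3' : (1 : ℤ) ≤ (v k : ℤ) - v i := by
    have : (v i : ℤ) < v k := by exact_mod_cast h3
    omega
  have h4' : (0 : ℤ) ≤ (b i : ℤ) - b (k - 1) := by
    have : (b (k - 1) : ℤ) ≤ b i := by exact_mod_cast h4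
    omega
  have hq' : (1 : ℤ) ≤ q := by exact_mod_cast hq
  have hqc' : (q : ℤ) ≤ c := by exact_mod_cast hqc
  have hpos : (0 : ℤ) < (q : ℤ) * v k - c * b (k - 1) := by
    rw [e]
    have h6 : (0 : ℤ) < q * ((v k : ℤ) - v i) := by positivity
    have h7 : (0 : ℤ) ≤ c * ((b i : ℤ) - b (k - 1)) := mul_nonneg (by positivity) h4'
    linarith
  have h8 := Int.le_of_dvd hpos h5
  rw [e] at h8
  have h9 : (q : ℤ) * ((v k : ℤ) - v i) ≤ c * ((v k : ℤ) - v i) :=
    mul_le_mul_of_nonneg_right hqc' (by linarith)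
  have h10 : (g k : ℤ) ≤ c * (((v k : ℤ) - v i) + ((b i : ℤ) - b (k - 1))) := by
    rw [mul_add]; linarith
  exact_mod_cast h10

lemma Seg.growth (h : Seg n N v b g) {W : ℝ} (hW : (v N : ℝ) - v (n + 1) ≤ W)
    {i c q : ℕ} (hi : n + 1 ≤ i) (hcq : c * b i = q * v i) (hq : 1 ≤ q) (hqc : q ≤ c) :
    ∀ j, i + j ≤ N → W + ((b i : ℝ) - b (i + j)) ≤ (1 + (c : ℝ)) ^ j * W := by
  intro j
  induction j with
  | zero => intro _; simp
  | succ j ih =>
    intro hj
    have h0 := ih (by omega)
    have h1 := h.jump hi (show i < i + j + 1 by omega) (by omega) hcq hq hqc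
    rw [Nat.add_sub_cancel] at h1
    have h2 := h.step (i + j + 1) (by omega) (by omega)
    rw [Nat.add_sub_cancel] at h2
    have h2' : (b (i + j + 1) : ℝ) + g (i + j + 1) = b (i + j) := by exact_mod_cast h2
    have h3 : (v (i + j + 1) : ℝ) ≤ v N := by
      exact_mod_cast h.vle (by omega) (show i + j + 1 ≤ N by omega) le_rfl
    have h4 : (v (n + 1) : ℝ) ≤ v i := by
      exact_mod_cast h.vle le_rfl hi (by omega)
    have h5 : (c : ℝ) * (((v (i + j + 1) : ℝ) - v i) + ((b i : ℝ) - b (i + j))) ≤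
        c * (W + ((b i : ℝ) - b (i + j))) := by
      apply mul_le_mul_of_nonneg_left _ (by positivity)
      linarith
    have h6 : (1 + (c : ℝ)) * (W + ((b i : ℝ) - b (i + j))) ≤ (1 + (c : ℝ)) * ((1 + (c : ℝ)) ^ j * W) :=
      mul_le_mul_of_nonneg_left h0 (by positivity)
    show W + ((b i : ℝ) - b (i + j + 1)) ≤ _
    calc W + ((b i : ℝ) - b (i + j + 1))
        ≤ (1 + (c : ℝ)) * (W + ((b i : ℝ) - b (i + j))) := by
          have : (b (i + j + 1) : ℝ) = b (i + j) - g (i + j + 1) := by linarith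
          rw [this]
          linarith
      _ ≤ _ := h6
      _ = (1 + (c : ℝ)) ^ (j + 1) * W := by ring

lemma Seg.later (h : Seg n N v b g) {W : ℝ} (hW : (v N : ℝ) - v (n + 1) ≤ W) (hW0 : 0 ≤ W)
    {i k c q : ℕ} (hi : n + 1 ≤ i) (hik : i < k) (hk : k ≤ N) (hcq : c * b i = q * v i)
    (hq : 1 ≤ q) (hqc : q ≤ c) : (g k : ℝ) ≤ (1 + (c : ℝ)) ^ (k - i) * W := by
  have h1 := h.growth hW hi hcq hq hqc (k - i) (by omega)
  rw [show i + (k - i) = k by omega] at h1
  have h2 := h.step k (by omega) hk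
  have h2' : (b k : ℝ) + g k = b (k - 1) := by exact_mod_cast h2
  have h3 : (b (k - 1) : ℝ) ≤ b i := by exact_mod_cast h.anti i hi (k - 1) (by omega) (by omega)
  linarith

/-- the potential inequality -/
lemma pot {Y y : ℝ} (hy : 0 < y) (hyY : y ≤ Y) (hY : Y + y ≤ 2) :
    log (log (8 / Y)) - log (log (8 / (Y + y))) ≤ 2 / log (8 / y) := by
  have hY0 : 0 < Y := hy.trans_le hyY
  have hl4 : (1 : ℝ) ≤ log 4 := by
    have h1 : (4 : ℝ) = 2 ^ 2 := by norm_num
    rw [h1, Real.log_pow]
    have := Real.log_two_gt_d9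
    push_cast; linarith
  have hl4' : log 4 = 2 * log 2 := by
    rw [show (4 : ℝ) = 2 ^ 2 by norm_num, Real.log_pow]; push_cast; ring
  set l := log (8 / Y) with hl
  set l' := log (8 / (Y + y)) with hl'
  have e1 : l = log 8 - log Y := by rw [hl, Real.log_div (by norm_num) hY0.ne']
  have e2 : l' = log 8 - log (Y + y) := by rw [hl', Real.log_div (by norm_num) (by positivity)]
  have e3 : log (8 / y) = log 8 - log y := by rw [Real.log_div (by norm_num) hy.ne']
  have hl'1 : log 4 ≤ l' := by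
    apply Real.log_le_log (by norm_num)
    rw [le_div_iff₀ (by positivity)]; linarith
  have hl1 : log 4 ≤ l := by
    apply Real.log_le_log (by norm_num)
    rw [le_div_iff₀ hY0]; linarith
  have hd : l - l' = log ((Y + y) / Y) := by
    rw [e1, e2, Real.log_div (by positivity) hY0.ne']; ring
  have hd1 : l - l' ≤ y / Y := by
    rw [hd]
    have := Real.log_le_sub_one_of_pos (show 0 < (Y + y) / Y by positivity)
    have e : (Y + y) / Y - 1 = y / Y := by field_simp; ring
    linarith
  have hd2 : l - l' ≤ log 2 := by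
    rw [hd]
    apply Real.log_le_log (by positivity)
    rw [div_le_iff₀ hY0]; linarith
  have hlpos : 0 < l := by linarith
  have hl'pos : 0 < l' := by linarith
  have h2 : l ≤ 2 * l' := by linarith
  have h3 : log l - log l' ≤ (l - l') / l' := by
    have := Real.log_le_sub_one_of_pos (show 0 < l / l' by positivity)
    rw [Real.log_div hlpos.ne' hl'pos.ne'] at this
    have e : l / l' - 1 = (l - l') / l' := by field_simp
    linarith
  have h4 : (l - l') / l' ≤ (y / Y) / l' := div_le_div_of_nonneg_right hd1 hl'pos.le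
  have h5 : (y / Y) / l' ≤ 2 * (y / Y) / l := by
    rw [div_le_div_iff₀ hl'pos hlpos]
    have : 0 ≤ y / Y := by positivity
    nlinarith
  -- monotonicity of `x log (8 / x)`
  have h6 : y * log (8 / y) ≤ Y * l := by
    have e : log (8 / y) = l + log (Y / y) := by
      rw [e3, e1, Real.log_div hY0.ne' hy.ne']; ring
    have h7 : log (Y / y) ≤ Y / y - 1 := Real.log_le_sub_one_of_pos (by positivity)
    have h8 : y * log (Y / y) ≤ Y - y := by
      have := mul_le_mul_of_nonneg_left h7 hy.le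
      have e : y * (Y / y - 1) = Y - y := by field_simp
      linarith
    have h9 : (Y - y) ≤ (Y - y) * l := by nlinarith
    rw [e]
    nlinarith
  have hly : 0 < log (8 / y) := Real.log_pos (by rw [lt_div_iff₀ hy]; linarith)
  have h10 : 2 * (y / Y) / l ≤ 2 / log (8 / y) := by
    rw [div_le_div_iff₀ hlpos hly]
    have : (y / Y) * log (8 / y) ≤ l := by
      rw [div_mul_eq_mul_div, div_le_iff₀ hY0]; linarith
    linarith
  linarith

end Pool.Agent.Q31.GC
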