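import Pool.Agent.Q31.GC.Fin

set_option autoImplicit false

namespace Pool.Agent.Q31.GC

open Finset Real Filter Topology

/-- a `d`-separated set in `[1, N]` -/
lemma card_sep {N : ℕ} {d : ℝ} (hd : 0 < d) (T : Finset ℕ) (hT : ∀ n ∈ T, n ≤ N)
    (hs : ∀ n ∈ T, ∀ n' ∈ T, n < n' → d ≤ (n' : ℝ) - n) : (T.card : ℝ) ≤ N / d + 1 := by
  have hlt : ∀ n ∈ T, ∀ n' ∈ T, n < n' → ⌊(n : ℝ) / d⌋₊ < ⌊(n' : ℝ) / d⌋₊ := by
    intro n hn n' hn' h
    have h1 := hs n hn n' hn' h
    have h2 : (n : ℝ) / d + 1 ≤ n' / d := by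
      rw [← sub_nonneg]
      have e : (n' : ℝ) / d - (n / d + 1) = (n' - n - d) / d := by field_simp; ring
      rw [e]
      exact div_nonneg (by linarith) hd.le
    have h3 := Nat.floor_le_floor h2
    rw [Nat.floor_add_one (by positivity)] at h3
    omega
  have h1 : T.card ≤ (range (⌊(N : ℝ) / d⌋₊ + 1)).card := by
    apply card_le_card_of_injOn (fun n : ℕ => ⌊(n : ℝ) / d⌋₊)
    · intro n hn
      rw [mem_coe, mem_range]
      have : ⌊(n : ℝ) / d⌋₊ ≤ ⌊(N : ℝ) / d⌋₊ := by
        apply Nat.floor_le_floor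
        apply div_le_div_of_nonneg_right _ hd.le
        exact_mod_cast hT n hn
      show ⌊(n : ℝ) / d⌋₊ < _
      omega
    · intro n hn n' hn' h
      rcases lt_trichotomy n n' with h1 | h1 | h1
      · have := hlt n hn n' hn' h1
        simp only at h; omega
      · exact h1
      · have := hlt n' hn' n hn h1
        simp only at h; omega
  rw [card_range] at h1
  have h2 : (T.card : ℝ) ≤ ⌊(N : ℝ) / d⌋₊ + 1 := by exact_mod_cast h1
  have h3 := Nat.floor_le (show (0 : ℝ) ≤ N / d by positivity)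
  linarith

lemma ev2 (n₀ : ℕ) : ∀ᶠ N : ℕ in atTop, 2 * log 2 ≤ log (log N) ∧ (log N) ^ 2 ≤ (N : ℝ) ^ (1 / 4 : ℝ) ∧
    2 ≤ (N : ℝ) ^ (1 / 4 : ℝ) ∧ 1 ≤ log N ∧ (1 : ℝ) ≤ N ∧ (n₀ : ℝ) ≤ √N := by
  have e1 : ∀ᶠ x : ℝ in atTop, (log x) ^ 2 ≤ x ^ (1 / 4 : ℝ) := by
    have h := (isLittleO_log_rpow_rpow_atTop 2 (show (0 : ℝ) < 1 / 4 by norm_num)).bound one_pos
    filter_upwards [h, eventually_ge_atTop (1 : ℝ)] with x hx hx1
    have h1 : 0 ≤ log x := Real.log_nonneg hx1
    rw [Real.norm_of_nonneg (by positivity), Real.norm_of_nonneg (by positivity), one_mul] at hx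
    have h2 : log x ^ (2 : ℝ) = log x ^ 2 := by
      rw [← Real.rpow_natCast]; norm_num
    rwa [h2] at hx
  have e2 : ∀ᶠ x : ℝ in atTop, 2 * log 2 ≤ log (log x) :=
    (Real.tendsto_log_atTop.comp Real.tendsto_log_atTop).eventually_ge_atTop _
  have e3 : ∀ᶠ x : ℝ in atTop, 2 ≤ x ^ (1 / 4 : ℝ) :=
    (tendsto_rpow_atTop (by norm_num)).eventually_ge_atTop _
  have e4 : ∀ᶠ x : ℝ in atTop, 1 ≤ log x := Real.tendsto_log_atTop.eventually_ge_atTop _
  have e5 : ∀ᶠ x : ℝ in atTop, (n₀ : ℝ) ≤ √x := Real.tendsto_sqrt_atTop.eventually_ge_atTop _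
  exact tendsto_natCast_atTop_atTop.eventually (e2.and (e1.and (e3.and (e4.and
    ((eventually_ge_atTop (1 : ℝ)).and e5)))))

/-- the zeros up to `N` -/
def zeros (a : ℕ → ℤ) (N : ℕ) : Finset ℕ := (Icc 1 N).filter (fun n => a n = 0)

theorem count {a : ℕ → ℤ} {n₀ : ℕ}
    (h : ∀ n n' : ℕ, 1 ≤ n → n < n' → n₀ ≤ n' → a n = 0 → a n' = 0 →
      1 / 8 * (log n' * log (log n')) ≤ (n' : ℝ) - n) :
    ∀ᶠ N : ℕ in atTop, ((zeros a N).card : ℝ) ≤ 33 * (N / (log N * log (log N))) := by
  filter_upwards [ev2 n₀] with N hN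
  obtain ⟨h1, h2, h3, h4, h5, h6⟩ := hN
  have hlog2 : (0 : ℝ) < log 2 := Real.log_pos (by norm_num)
  have hll : 0 < log (log N) := by linarith
  have hl : 0 < log (N : ℝ) := by linarith
  set d : ℝ := 1 / 32 * (log N * log (log N)) with hd
  have hd0 : 0 < d := by positivity
  set s : ℕ := ⌊√(N : ℝ)⌋₊ with hs
  have hsub : zeros a N ⊆ Icc 1 s ∪ (Icc 1 N).filter (fun n => a n = 0 ∧ s < n) := by
    intro n hn
    unfold zeros at hn
    rw [mem_filter, mem_Icc] at hn
    rw [mem_union, mem_filter, mem_Icc, mem_Icc]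
    rcases le_or_gt n s with h | h
    · left; exact ⟨hn.1.1, h⟩
    · right; exact ⟨hn.1, hn.2, h⟩
  have hc := (card_le_card hsub).trans (card_union_le _ _)
  rw [Nat.card_Icc, Nat.add_sub_cancel] at hc
  have hT := card_sep (N := N) hd0 ((Icc 1 N).filter (fun n => a n = 0 ∧ s < n))
    (fun n hn => (mem_Icc.1 (mem_filter.1 hn).1).2) (by
      intro n hn n' hn' hlt
      rw [mem_filter, mem_Icc] at hn hn'
      have hsn : √(N : ℝ) < n' := by
        rw [hs] at hn'
        exact (Nat.floor_lt (by positivity)).1 hn'.2.2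
      have hn0 : n₀ ≤ n' := by
        have : (n₀ : ℝ) ≤ n' := by linarith
        exact_mod_cast this
      refine le_trans ?_ (h n n' hn.1.1 hlt hn0 hn.2.1 hn'.2.1)
      have hN0 : (0 : ℝ) < N := by linarith
      have e1 : 1 / 2 * log N ≤ log n' := by
        have : log (√(N : ℝ)) ≤ log n' := Real.log_le_log (Real.sqrt_pos.2 hN0) hsn.le
        rw [Real.log_sqrt hN0.le] at this
        linarith
      have e2 : 1 / 2 * log (log N) ≤ log (log n') := by
        have h7 : log (1 / 2 * log N) ≤ log (log n') := Real.log_le_log (by positivity) e1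
        have h8 : log (1 / 2 * log N) = log (log N) - log 2 := by
          rw [Real.log_mul (by norm_num) hl.ne', Real.log_div (by norm_num) (by norm_num),
            Real.log_one]
          ring
        linarith
      have e3 : (1 / 2 * log N) * (1 / 2 * log (log N)) ≤ log n' * log (log n') :=
        mul_le_mul e1 e2 (by positivity) (le_trans (by positivity) e1)
      rw [hd]
      linarith)
  have hc' : ((zeros a N).card : ℝ) ≤ s + (N / d + 1) := by
    have : ((zeros a N).card : ℝ) ≤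
        s + (((Icc 1 N).filter (fun n => a n = 0 ∧ s < n)).card : ℝ) := by exact_mod_cast hc
    linarith
  have hs1 : (s : ℝ) ≤ √N := Nat.floor_le (by positivity)
  have e4 : (N : ℝ) / d = 32 * (N / (log N * log (log N))) := by
    rw [hd]; field_simp
  have e5 : √(N : ℝ) + 1 ≤ N / (log N * log (log N)) := by
    rw [le_div_iff₀ (by positivity)]
    have hle : log (log (N : ℝ)) ≤ log N :=
      (Real.log_le_sub_one_of_pos hl).trans (by linarith)
    set t : ℝ := (N : ℝ) ^ (1 / 4 : ℝ) with ht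
    have hN0 : (0 : ℝ) ≤ N := by linarith
    have ht4 : t ^ 4 = N := by
      rw [ht, ← Real.rpow_natCast, ← Real.rpow_mul hN0]; norm_num
    have hsq : √(N : ℝ) = t ^ 2 := by
      rw [← ht4, show t ^ 4 = (t ^ 2) ^ 2 by ring, Real.sqrt_sq (by positivity)]
    rw [hsq]
    have h7 : log (N : ℝ) * log (log N) ≤ t := by
      refine le_trans ?_ h2
      rw [sq]
      exact mul_le_mul_of_nonneg_left hle hl.le
    calc (t ^ 2 + 1) * (log N * log (log N)) ≤ (t ^ 2 + 1) * t :=
          mul_le_mul_of_nonneg_left h7 (by positivity)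
      _ ≤ t ^ 4 := by nlinarith [sq_nonneg t, mul_pos (show (0:ℝ) < t by linarith) (show (0:ℝ) < t by linarith), mul_nonneg (show (0:ℝ) ≤ t - 2 by linarith) (show (0:ℝ) ≤ t ^ 3 by positivity), mul_nonneg (show (0:ℝ) ≤ t - 1 by linarith) (show (0:ℝ) ≤ t ^ 2 by positivity)]
      _ = N := ht4
  rw [e4] at hc'
  linarith

/-- the zeros are few among the primes -/
theorem ratio {a : ℕ → ℤ} (h : ∀ᶠ N : ℕ in atTop,
    ((zeros a N).card : ℝ) ≤ 33 * (N / (log N * log (log N)))) :
    Tendsto (fun N : ℕ => ((zeros a N).card : ℝ) / (Nat.primeCounting N : ℝ)) atTop (𝓝 0) := by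
  have hlim : Tendsto (fun N : ℕ => 66 / log (log (N : ℝ))) atTop (𝓝 0) := by
    have : Tendsto (fun N : ℕ => log (log (N : ℝ))) atTop atTop :=
      (Real.tendsto_log_atTop.comp Real.tendsto_log_atTop).comp tendsto_natCast_atTop_atTop
    exact this.const_div_atTop _
  have e6 : ∀ᶠ N : ℕ in atTop, (10 : ℝ) ≤ √N ∧ log ((N : ℝ) + 1) ≤ √N := by
    have e5 : ∀ᶠ x : ℝ in atTop, 10 ≤ √x := Real.tendsto_sqrt_atTop.eventually_ge_atTop _
    have e7 : ∀ᶠ x : ℝ in atTop, log (x + 1) ≤ √x := by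
      have h := (isLittleO_log_rpow_atTop (show (0 : ℝ) < 1 / 2 by norm_num)).bound
        (show (0 : ℝ) < 1 / 2 by norm_num)
      filter_upwards [h, eventually_ge_atTop (3 : ℝ)] with x hx hx1
      have h1 : 0 ≤ log x := Real.log_nonneg (by linarith)
      rw [Real.norm_of_nonneg (by positivity), Real.norm_of_nonneg (by positivity),
        ← Real.sqrt_eq_rpow] at hx
      have h2 : log (x + 1) ≤ log (x ^ 2) := Real.log_le_log (by positivity) (by nlinarith)
      rw [Real.log_pow] at h2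
      push_cast at h2
      linarith
    exact tendsto_natCast_atTop_atTop.eventually (e5.and e7)
  refine squeeze_zero' (Eventually.of_forall fun N => by positivity) ?_ hlim
  filter_upwards [h, ev2 0, e6] with N h0 hN h6
  obtain ⟨h1, h2, h3, h4, h5, -⟩ := hN
  obtain ⟨h7, h8⟩ := h6
  have hlog2 : (0 : ℝ) < log 2 := Real.log_pos (by norm_num)
  have hll : 0 < log (log (N : ℝ)) := by linarith
  have hl : 0 < log (N : ℝ) := by linarith
  have hN0 : (0 : ℝ) < N := by linarith
  have hsq : √(N : ℝ) * √N = N := Real.mul_self_sqrt hN0.le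
  have hpi := Chebyshev.pi_ge N
  have hlow : (N : ℝ) / (2 * log N) ≤ (Nat.primeCounting N : ℝ) := by
    refine le_trans ?_ hpi
    rw [div_le_div_iff₀ (by positivity) hl]
    have hg := Real.log_two_gt_d9
    have h9 : log ((N : ℝ) + 1) ≤ N * (log 2 - 1 / 2) := by
      have h10 : √(N : ℝ) ≤ N * (log 2 - 1 / 2) := by
        have : (0.19 : ℝ) ≤ log 2 - 1 / 2 := by linarith
        nlinarith
      linarith
    nlinarith
  have hpos : 0 < (Nat.primeCounting N : ℝ) := lt_of_lt_of_le (by positivity) hlow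
  rw [div_le_div_iff₀ hpos hll]
  calc ((zeros a N).card : ℝ) * log (log N)
      ≤ 33 * (N / (log N * log (log N))) * log (log N) :=
        mul_le_mul_of_nonneg_right h0 hll.le
    _ = 66 * (N / (2 * log N)) := by field_simp; ring
    _ ≤ 66 * (Nat.primeCounting N : ℝ) := mul_le_mul_of_nonneg_left hlow (by norm_num)

end Pool.Agent.Q31.GC
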