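import Pool.Agent.Q31.GC.Asym

set_option autoImplicit false

namespace Pool.Agent.Q31.GC

open Finset Real Filter

/-- the segment between two consecutive zeros of the recursion -/
lemma seg_of {p : ℕ} (hp : 1 ≤ p) {a : ℕ → ℤ} (ha1 : a 1 = 1)
    (ha : ∀ n : ℕ, 2 ≤ n →
      a n = |a (n - 1) - ((Int.gcd (a (n - 1)) ((n : ℤ) ^ p - 1) : ℕ) : ℤ)|)
    {m N : ℕ} (hm : 1 ≤ m) (hmN : m < N) (h0 : a m = 0) (hN : a N = 0)
    (hne : ∀ k, m < k → k < N → a k ≠ 0) :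
    Seg m N (fun k => k ^ p - 1) (fun k => (a k).natAbs)
      (fun k => Int.gcd (a (k - 1)) ((k : ℤ) ^ p - 1)) := by
  have hnn : ∀ k, 1 ≤ k → 0 ≤ a k := by
    intro k hk
    rcases Nat.lt_or_ge k 2 with h | h
    · rw [show k = 1 by omega, ha1]; norm_num
    · rw [ha k h]; exact abs_nonneg _
  have vcast : ∀ k : ℕ, 1 ≤ k → ((k ^ p - 1 : ℕ) : ℤ) = (k : ℤ) ^ p - 1 := by
    intro k hk
    rw [Nat.cast_sub (Nat.one_le_pow _ _ hk)]; push_cast; ring
  have vabs : ∀ k : ℕ, 1 ≤ k → ((k : ℤ) ^ p - 1).natAbs = k ^ p - 1 := by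
    intro k hk
    rw [← vcast k hk, Int.natAbs_natCast]
  have hstart : (a (m + 1)).natAbs = (m + 1) ^ p - 1 := by
    rw [ha (m + 1) (by omega), Nat.add_sub_cancel, h0, Int.gcd_zero_left, zero_sub, abs_neg,
      Nat.abs_cast, Int.natAbs_natCast, vabs (m + 1) (by omega)]
  have hvpos : 0 < (m + 1) ^ p - 1 := by
    have : m + 1 ≤ (m + 1) ^ p := Nat.le_self_pow (by omega) _
    omega
  have hlt : m + 2 ≤ N := by
    by_contra hc
    have : N = m + 1 := by omega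
    subst this
    rw [hN] at hstart
    simp at hstart
    omega
  have hpos : ∀ k, m + 2 ≤ k → k ≤ N → 0 < a (k - 1) := by
    intro k h1 h2
    have h3 := hnn (k - 1) (by omega)
    have h4 := hne (k - 1) (by omega) (by omega)
    omega
  refine ⟨hlt, ?_, hstart, by simp [hN], ?_, ?_, ?_, ?_, ?_⟩
  · intro i k h1 h2 _
    have : i ^ p < k ^ p := Nat.pow_lt_pow_left h2 (by omega)
    have : 1 ≤ i ^ p := Nat.one_le_pow _ _ (by omega)
    show i ^ p - 1 < k ^ p - 1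
    omega
  · intro k h1 h2
    exact Int.natAbs_pos.2 (hpos k h1 h2).ne'
  · intro k h1 h2
    have h3 := hpos k h1 h2
    have h4 : ((Int.gcd (a (k - 1)) ((k : ℤ) ^ p - 1) : ℕ) : ℤ) ≤ a (k - 1) :=
      Int.le_of_dvd h3 (Int.gcd_dvd_left ..)
    have h5 := ha k (by omega)
    rw [abs_of_nonneg (by omega)] at h5
    show (a k).natAbs + Int.gcd (a (k - 1)) ((k : ℤ) ^ p - 1) = (a (k - 1)).natAbs
    omega
  · intro k _ _
    exact Nat.gcd_dvd_left _ _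
  · intro k h1 _
    show Nat.gcd (a (k - 1)).natAbs (((k : ℤ) ^ p - 1).natAbs) ∣ k ^ p - 1
    rw [vabs k (by omega)]
    exact Nat.gcd_dvd_right _ _
  · intro k h1 h2
    exact Int.gcd_pos_of_ne_zero_left _ (hpos k h1 h2).ne'

/-- two zeros are far from each other -/
theorem gap {p : ℕ} (hp : 1 ≤ p) : ∃ n₀ : ℕ, ∀ a : ℕ → ℤ, a 1 = 1 →
    (∀ n : ℕ, 2 ≤ n →
      a n = |a (n - 1) - ((Int.gcd (a (n - 1)) ((n : ℤ) ^ p - 1) : ℕ) : ℤ)|) →
    ∀ n n' : ℕ, 1 ≤ n → n < n' → n₀ ≤ n' → a n = 0 → a n' = 0 →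
      1 / 8 * (log n' * log (log n')) ≤ (n' : ℝ) - n := by
  obtain ⟨N0, hN0⟩ := asym p hp
  refine ⟨N0, fun a ha1 ha n n' hn hnn' hN h0 h0' => ?_⟩
  classical
  -- the last zero before `n'`
  have hfin : ((range n').filter (fun k => n ≤ k ∧ a k = 0)).Nonempty :=
    ⟨n, by simp [hnn', h0]⟩
  obtain ⟨m, hm, hmax⟩ := exists_max_image _ (fun k => k) hfin
  rw [mem_filter, mem_range] at hm
  obtain ⟨hm1, hm2, hm3⟩ := hm
  have hseg := seg_of hp ha1 ha (by omega) hm1 hm3 h0' (fun k h1 h2 h3 => by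
    have := hmax k (by rw [mem_filter, mem_range]; exact ⟨h2, by omega, h3⟩)
    omega)
  have h := hN0 m n' _ _ _ hseg (fun k hk => by
    rw [Nat.cast_sub (Nat.one_le_pow _ _ hk)]; push_cast; ring) hN
  have : (n : ℝ) ≤ m := by exact_mod_cast hm2
  linarith

end Pool.Agent.Q31.GC
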