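import Pool.Agent.Q31.GC.Core

set_option autoImplicit false

namespace Pool.Agent.Q31.GC

open Finset Real

variable {n N : ℕ} {v b g : ℕ → ℕ}

open Classical in
/-- the sum of the large jumps up to time `k` -/
noncomputable def Zs (n : ℕ) (g : ℕ → ℕ) (G : ℝ) (k : ℕ) : ℝ :=
  ∑ l ∈ range (k + 1), if n + 2 ≤ l ∧ G ≤ g l then (g l : ℝ) else 0

open Classical in
lemma Zs_succ (G : ℝ) (k : ℕ) : Zs n g G (k + 1) =
    Zs n g G k + if n + 2 ≤ k + 1 ∧ G ≤ g (k + 1) then (g (k + 1) : ℝ) else 0 := by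
  unfold Zs
  rw [sum_range_succ]

lemma Zs_start (G : ℝ) : Zs n g G (n + 1) = 0 := by
  classical
  unfold Zs
  apply sum_eq_zero
  intro l hl
  rw [mem_range] at hl
  rw [if_neg (by omega)]

lemma Zs_nonneg (G : ℝ) (k : ℕ) : 0 ≤ Zs n g G k := by
  classical
  unfold Zs
  apply sum_nonneg
  intro l _
  split_ifs <;> positivity

lemma Seg.Zs_le (h : Seg n N v b g) (G : ℝ) (k : ℕ) (hk : n + 1 ≤ k) :
    k ≤ N → Zs n g G k ≤ (b (n + 1) : ℝ) - b k := by
  classical
  induction k, hk using Nat.le_induction with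
  | base => intro _; rw [Zs_start]; simp
  | succ k hk ih =>
    intro hkN
    have h0 := ih (by omega)
    have h2 := h.step (k + 1) (by omega) (by omega)
    rw [Nat.add_sub_cancel] at h2
    have h2' : (b (k + 1) : ℝ) + g (k + 1) = b k := by exact_mod_cast h2
    have hg : (0 : ℝ) ≤ g (k + 1) := by positivity
    rw [Zs_succ]
    split_ifs <;> linarith

lemma Seg.Zs_ge (h : Seg n N v b g) {G : ℝ} (hG : 0 ≤ G) (k : ℕ) (hk : n + 1 ≤ k) :
    k ≤ N → (b (n + 1) : ℝ) - b k ≤ Zs n g G k + ((k : ℝ) - (n + 1)) * G := by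
  classical
  induction k, hk using Nat.le_induction with
  | base => intro _; rw [Zs_start]; push_cast; simp
  | succ k hk ih =>
    intro hkN
    have h0 := ih (by omega)
    have h2 := h.step (k + 1) (by omega) (by omega)
    rw [Nat.add_sub_cancel] at h2
    have h2' : (b (k + 1) : ℝ) + g (k + 1) = b k := by exact_mod_cast h2
    rw [Zs_succ]
    push_cast
    split_ifs with hc
    · linarith
    · have : (g (k + 1) : ℝ) < G := by
        by_contra hc2
        push Not at hc2
        exact hc ⟨by omega, hc2⟩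
      linarith

/-- the cofactor of a jump -/
lemma Seg.cofactor (h : Seg n N v b g) {i : ℕ} (hi : n + 2 ≤ i) (hiN : i < N) :
    ∃ c q : ℕ, c * b i = q * v i ∧ 1 ≤ q ∧ q ≤ c ∧ v i = g i * c := by
  obtain ⟨c, hc⟩ := h.dvdv i hi hiN.le
  obtain ⟨r, hr⟩ := h.dvdb i hi hiN.le
  have h1 := h.step i hi hiN.le
  have h2 := h.pos (i + 1) (by omega) (by omega)
  rw [Nat.add_sub_cancel] at h2
  have h3 := h.gpos i hi hiN.le
  have h4 : b i ≤ v i := by
    have := h.anti (n + 1) le_rfl i (by omega) hiN.le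
    rw [h.start] at this
    exact this.trans (h.vle le_rfl (by omega) hiN.le)
  have hr1 : 1 ≤ r := by
    rcases Nat.eq_zero_or_pos r with rfl | h
    · omega
    · exact h
  obtain ⟨q, rfl⟩ : ∃ q, r = q + 1 := ⟨r - 1, by omega⟩
  have hb : b i = g i * q := by
    have : b i + g i = g i * q + g i := by rw [h1, hr]; ring
    omega
  refine ⟨c, q, ?_, ?_, ?_, hc⟩
  · rw [hb, hc]; ring
  · rcases Nat.eq_zero_or_pos q with rfl | h
    · rw [hb] at h2; simp at h2
    · exact h
  · rw [hb, hc] at h4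
    exact Nat.le_of_mul_le_mul_left h4 h3

theorem Seg.core (h : Seg n N v b g) {W G : ℝ} (hW : (v N : ℝ) - v (n + 1) ≤ W) (hW0 : 0 < W)
    (hWG : W ≤ G) (hε : 2 * (W + ((N : ℝ) - n) * G) ≤ v N) :
    log (G / W) * (log (log (8 / ((W + ((N : ℝ) - n) * G) / v N))) - log (log 16)) ≤
      2 * ((N : ℝ) - n) := by
  classical
  have hlt := h.lt
  have hNn : (n : ℝ) + 2 ≤ N := by exact_mod_cast hlt
  have hG0 : 0 < G := hW0.trans_le hWG
  set V : ℝ := (v N : ℝ) with hV
  have hX0 : 0 < W + ((N : ℝ) - n) * G := by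
    have : 0 < ((N : ℝ) - n) * G := mul_pos (by linarith) hG0
    linarith
  have hV0 : 0 < V := by linarith
  set X : ℝ := W + ((N : ℝ) - n) * G with hX
  set ε : ℝ := X / V with hε'
  have hε0 : 0 < ε := div_pos hX0 hV0
  have hε1 : ε ≤ 1 / 2 := by
    rw [hε', div_le_iff₀ hV0]; linarith
  set Λ : ℝ := log (G / W) with hΛ
  have hΛ0 : 0 ≤ Λ := Real.log_nonneg (by rw [le_div_iff₀ hW0]; linarith)
  set Z : ℕ → ℝ := Zs n g G with hZ
  have hvn : (v (n + 1) : ℝ) ≤ V := Nat.cast_le.2 (h.vle le_rfl (by omega) le_rfl)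
  have hcap : ∀ k, n + 1 ≤ k → k ≤ N → ε + Z k / V ≤ 2 := by
    intro k h1 h2
    have h3 := h.Zs_le G k h1 h2
    have h4 : (0 : ℝ) ≤ b k := by positivity
    have h5 : (b (n + 1) : ℝ) = v (n + 1) := by exact_mod_cast h.start
    have h6 : Z k / V ≤ 1 := by
      rw [div_le_one hV0]
      show Zs n g G k ≤ V
      linarith
    linarith
  have hZ0 : ∀ k, 0 ≤ Z k := fun k => Zs_nonneg G k
  have hsigY : ∀ k, n + 2 ≤ k → k ≤ N → (g k : ℝ) / V ≤ ε + Z (k - 1) / V := by
    intro k h1 h2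
    have h3 := h.jump (c := 1) (q := 1) le_rfl (show n + 1 < k by omega) h2
      (by rw [h.start]) le_rfl le_rfl
    have h4 := h.Zs_ge hG0.le (k - 1) (by omega) (by omega)
    have h5 : (v k : ℝ) ≤ V := Nat.cast_le.2 (h.vle (by omega) h2 le_rfl)
    have h6 : (((k - 1 : ℕ) : ℝ) - (n + 1)) * G ≤ ((N : ℝ) - n) * G := by
      apply mul_le_mul_of_nonneg_right _ hG0.le
      have : ((k - 1 : ℕ) : ℝ) ≤ N := by exact_mod_cast (show k - 1 ≤ N by omega)
      linarith
    rw [hε', ← add_div]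
    apply div_le_div_of_nonneg_right _ hV0.le
    push_cast at h3
    show (g k : ℝ) ≤ X + Zs n g G (k - 1)
    linarith
  have key : ∀ i k, n + 2 ≤ i → i < k → k ≤ N → G ≤ g k →
      Λ * (2 / log (8 / ((g i : ℝ) / V))) ≤ 2 * ((k : ℝ) - i) := by
    intro i k h1 h2 h3 h4
    obtain ⟨c, q, e1, e2, e3, e4⟩ := h.cofactor h1 (by omega)
    have h5 := h.later hW hW0.le (by omega) h2 h3 e1 e2 e3
    have hgi : (0 : ℝ) < g i := by exact_mod_cast h.gpos i h1 (by omega)
    have hvi : (v i : ℝ) ≤ V := Nat.cast_le.2 (h.vle (by omega) (show i ≤ N by omega) le_rfl)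
    have e4' : (v i : ℝ) = g i * c := by exact_mod_cast e4
    have hc1 : (1 : ℝ) ≤ c := by exact_mod_cast e2.trans e3
    have hcV : (c : ℝ) ≤ V / g i := by
      rw [le_div_iff₀ hgi]; nlinarith
    have h6 : 1 + (c : ℝ) ≤ 8 / ((g i : ℝ) / V) := by
      have : 8 / ((g i : ℝ) / V) = 8 * (V / g i) := by
        rw [div_div_eq_mul_div, mul_div_assoc]
      rw [this]; linarith
    have h7 : log (1 + (c : ℝ)) ≤ log (8 / ((g i : ℝ) / V)) :=
      Real.log_le_log (by positivity) h6
    have h8 : 0 < log (1 + (c : ℝ)) := Real.log_pos (by linarith)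
    have h9 : Λ ≤ ((k : ℝ) - i) * log (1 + (c : ℝ)) := by
      have h10 : G / W ≤ (1 + (c : ℝ)) ^ (k - i) := by
        rw [div_le_iff₀ hW0]; linarith
      have h11 := Real.log_le_log (div_pos hG0 hW0) h10
      rw [Real.log_pow, Nat.cast_sub h2.le] at h11
      exact h11
    have h12 : Λ ≤ ((k : ℝ) - i) * log (8 / ((g i : ℝ) / V)) :=
      h9.trans (mul_le_mul_of_nonneg_left h7 (by
        have : (i : ℝ) < k := by exact_mod_cast h2
        linarith))
    have h13 : 0 < log (8 / ((g i : ℝ) / V)) := h8.trans_le h7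
    rw [mul_div_assoc', div_le_iff₀ h13]
    linarith
  have Q : ∀ k, n + 1 ≤ k → k ≤ N → (Z k = 0 ∨ ∃ i, n + 2 ≤ i ∧ i ≤ k ∧ G ≤ g i ∧
      Z k = Z (i - 1) + g i ∧
      Λ * (log (log (8 / ε)) - log (log (8 / (ε + Z (i - 1) / V)))) ≤ 2 * ((i : ℝ) - n)) := by
    intro k hk
    induction k, hk using Nat.le_induction with
    | base => intro _; left; exact Zs_start G
    | succ k hk ih =>
      intro hkN
      have h0 := ih (by omega)
      have hs : Z (k + 1) = Z k +
          if n + 2 ≤ k + 1 ∧ G ≤ g (k + 1) then (g (k + 1) : ℝ) else 0 := Zs_succ G k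
      by_cases hc : G ≤ g (k + 1)
      · rw [if_pos ⟨by omega, hc⟩] at hs
        right
        refine ⟨k + 1, by omega, le_rfl, hc, by rw [hs, Nat.add_sub_cancel], ?_⟩
        rw [Nat.add_sub_cancel]
        have hkn : (n : ℝ) + 1 ≤ k := by exact_mod_cast hk
        rcases h0 with h0 | ⟨i, h1, h2, h3, h4, h5⟩
        · rw [h0]
          simp only [zero_div, add_zero, sub_self, mul_zero]
          push_cast; linarith
        · have hY : ε + Z k / V = (ε + Z (i - 1) / V) + (g i : ℝ) / V := by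
            rw [h4, add_div]; ring
          have hgi : (0 : ℝ) < g i := by exact_mod_cast h.gpos i h1 (by omega)
          have h6 := pot (Y := ε + Z (i - 1) / V) (y := (g i : ℝ) / V) (div_pos hgi hV0)
            (hsigY i h1 (by omega)) (by
              have := hcap k hk (by omega)
              rw [hY] at this
              exact this)
          have h7 := mul_le_mul_of_nonneg_left h6 hΛ0
          have h8 := key i (k + 1) h1 (by omega) hkN hc
          rw [hY]
          push_cast at h8 ⊢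
          nlinarith
      · rw [if_neg (fun h' => hc h'.2), add_zero] at hs
        rcases h0 with h0 | ⟨i, h1, h2, h3, h4, h5⟩
        · left; rw [hs, h0]
        · right; exact ⟨i, h1, by omega, h3, by rw [hs, h4], h5⟩
  have hend := h.Zs_ge hG0.le N (by omega) le_rfl
  rw [h.stop] at hend
  have hst : (b (n + 1) : ℝ) = v (n + 1) := by exact_mod_cast h.start
  have hY1 : 1 ≤ ε + Z N / V := by
    rw [hε', ← add_div, le_div_iff₀ hV0]
    show 1 * V ≤ X + Zs n g G N
    push_cast at hend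
    have : ((N : ℝ) - (n + 1)) * G ≤ ((N : ℝ) - n) * G :=
      mul_le_mul_of_nonneg_right (by linarith) hG0.le
    linarith
  rcases Q N (by omega) le_rfl with h0 | ⟨i, h1, h2, h3, h4, h5⟩
  · rw [h0, zero_div, add_zero] at hY1; linarith
  · have h6 := hsigY i h1 h2
    have h7 : 1 / 2 ≤ ε + Z (i - 1) / V := by
      rw [h4, add_div] at hY1; linarith
    have h8 : ε + Z (i - 1) / V ≤ 2 := hcap (i - 1) (by omega) (by omega)
    have hY0 : 0 < ε + Z (i - 1) / V := by linarith
    have h9 : log (log (8 / (ε + Z (i - 1) / V))) ≤ log (log 16) := by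
      apply Real.log_le_log
      · apply Real.log_pos
        rw [lt_div_iff₀ hY0]; linarith
      · apply Real.log_le_log (by positivity)
        rw [div_le_iff₀ hY0]; linarith
    have h10 : Λ * (log (log (8 / ε)) - log (log 16)) ≤
        Λ * (log (log (8 / ε)) - log (log (8 / (ε + Z (i - 1) / V)))) :=
      mul_le_mul_of_nonneg_left (by linarith) hΛ0
    have h11 : (i : ℝ) ≤ N := by exact_mod_cast h2
    linarith

end Pool.Agent.Q31.GC
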